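import Mathlib
import Pool.Agent.J4H26.KP.Q
import Pool.Agent.J4H39.KP.S1

set_option autoImplicit false

/-! Project KP, job J4: the canonical form of a compatible configuration. -/

namespace Pool.Agent.J4H94.KP

open Finset Filter Real
open Pool.Agent.J4H39 (T od ex pb ns rn stP stK lb GK GS Cm DV th0 Per id1 id1_pos id1_neg id1_nonneg id1_le_one par Rel
  ex_mono ex_congr ex_add ex_mul ex_const)
open Pool.Agent.J4H26.PC (Iv)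
open Pool.Agent.J4H95.PC
open Pool.Agent.J4H26.KP (ccK cgK EK S_G1K)
open Pool.Agent.J4H39.KP (prodK_bd prodK_diff one_diff)

variable {K : ℕ}

/-- exponents relative to the form `i` -/
def ee (t : Fin K → ℤ × ℤ) (i : Fin K) (l : Fin K) : ℕ := ((t l).1 - (t i).1).toNat

/-- constants relative to the form `i` -/
def rr (t : Fin K → ℤ × ℤ) (i : Fin K) (l : Fin K) : ℤ := par (t l) (-(t i).2)

theorem rel_can {t : Fin K → ℤ × ℤ} {i : Fin K} (hmin : ∀ l, (t i).1 ≤ (t l).1) (h0 : (t i).1 ≤ 0) {y : ℤ} {z : Fin K → ℤ}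
    (hz : ∀ l, Rel (t l) y (z l)) :
    y = 3 ^ (-(t i).1).toNat * z i - (t i).2 ∧ (∀ l, z l = 3 ^ ee t i l * z i + rr t i l) ∧
    ∀ x l, Rel (t l) (3 ^ (-(t i).1).toNat * x - (t i).2) (3 ^ ee t i l * x + rr t i l) := by
  have hi := hz i
  unfold Pool.Agent.J4H39.Rel at hi
  have e0 : (t i).1.toNat = 0 := by omega
  rw [e0, pow_zero, one_mul] at hi
  have hy : y = 3 ^ (-(t i).1).toNat * z i - (t i).2 := by linarith
  have hpow : ∀ l, (3 : ℤ) ^ (-(t l).1).toNat * 3 ^ ee t i l = 3 ^ (t l).1.toNat * 3 ^ (-(t i).1).toNat := by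
    intro l
    have hexp : (-(t l).1).toNat + ee t i l = (t l).1.toNat + (-(t i).1).toNat := by
      have := hmin l
      unfold ee
      omega
    rw [← pow_add, ← pow_add, hexp]
  have key : ∀ l, 3 ^ (-(t l).1).toNat * (z l - 3 ^ ee t i l * z i) = 3 ^ (t l).1.toNat * (-(t i).2) + (t l).2 := by
    intro l
    have hl := hz l
    unfold Pool.Agent.J4H39.Rel at hl
    rw [mul_sub, hl, ← mul_assoc, hpow l, hy]
    ring
  have hrr : ∀ l, rr t i l = z l - 3 ^ ee t i l * z i := by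
    intro l
    unfold rr
    apply Pool.Agent.J4H39.par_eq
    unfold Pool.Agent.J4H39.Rel
    exact key l
  refine ⟨hy, fun l => by rw [hrr l]; ring, fun x l => ?_⟩
  unfold Pool.Agent.J4H39.Rel
  rw [mul_add, hrr l, key l, ← mul_assoc, hpow l]
  ring

theorem EK_eq {t : Fin K → ℤ × ℤ} {i : Fin K} (hmin : ∀ l, (t i).1 ≤ (t l).1) : EK t = (-(t i).1).toNat := by
  unfold EK
  apply le_antisymm
  · apply Finset.sup_le
    intro l _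
    have := hmin l
    omega
  · exact le_sup (f := fun i => (-(t i).1).toNat) (mem_univ i)

/-- the canonical correlation -/
noncomputable def can (F : Fin K → ℤ → ℝ) (κ X : ℝ) (t : Fin K → ℤ × ℤ) (i : Fin K) : ℝ :=
  ccK F κ (X / 3 ^ (-(t i).1).toNat) (ee t i) (rr t i)

theorem ceil_near {κ X : ℝ} (r : ℤ) {q : ℤ} (hq : 1 ≤ q) :
    |((⌈((⌈κ * X⌉ : ℤ) + (r : ℝ)) / q⌉ : ℤ) : ℝ) - ((⌈κ * (X / q)⌉ : ℤ) : ℝ)| ≤ |(r : ℝ)| + 2 := by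
  have hq1 : (1 : ℝ) ≤ q := by exact_mod_cast hq
  have hq0 : (0 : ℝ) < q := by linarith
  have a1 := Int.le_ceil (κ * X)
  have a2 := Int.ceil_lt_add_one (κ * X)
  have b1 := Int.le_ceil (((⌈κ * X⌉ : ℤ) + (r : ℝ)) / q)
  have b2 := Int.ceil_lt_add_one (((⌈κ * X⌉ : ℤ) + (r : ℝ)) / q)
  have c1 := Int.le_ceil (κ * (X / q))
  have c2 := Int.ceil_lt_add_one (κ * (X / q))
  have e1 : ((⌈κ * X⌉ : ℤ) + (r : ℝ)) / q = κ * (X / q) + ((⌈κ * X⌉ : ℤ) - κ * X) / q + r / q := by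
    field_simp
    ring
  have d1 : 0 ≤ (((⌈κ * X⌉ : ℤ) : ℝ) - κ * X) / q := div_nonneg (by linarith) hq0.le
  have d2 : (((⌈κ * X⌉ : ℤ) : ℝ) - κ * X) / q ≤ 1 := by
    rw [div_le_one hq0]; linarith
  have d3 : |(r : ℝ) / q| ≤ |(r : ℝ)| := by
    rw [abs_div, abs_of_pos hq0]
    exact div_le_self (abs_nonneg _) hq1
  obtain ⟨d4, d5⟩ := abs_le.1 d3
  rw [abs_le]
  constructor <;> linarith

theorem cgK_eq {F : Fin K → ℤ → ℝ} (κ X : ℝ) {t : Fin K → ℤ × ℤ} (hC : Cm t) {i : Fin K}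
    (hmin : ∀ l, (t i).1 ≤ (t l).1) (h0 : (t i).1 ≤ 0) {q : ℤ} (hq : q = 3 ^ (-(t i).1).toNat) :
    cgK F κ X t = (∑ x ∈ Finset.Ico ⌈(((⌈κ * X⌉ : ℤ) : ℝ) + (t i).2) / q⌉ ⌈(((⌈(κ + 1) * X⌉ : ℤ) : ℝ) + (t i).2) / q⌉,
      ∏ l, F l (3 ^ ee t i l * x + rr t i l)) / max (X / q) 1 := by
  classical
  obtain ⟨y₀, hy₀⟩ := hC
  choose z₀ hz₀ using hy₀
  obtain ⟨_, _, hrel⟩ := rel_can hmin h0 hz₀
  have hqR : (3 : ℝ) ^ (-(t i).1).toNat = ((q : ℤ) : ℝ) := by rw [hq]; push_cast; rfl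
  unfold cgK
  rw [EK_eq hmin, hqR]
  obtain ⟨r, hr⟩ : ∃ r, r = (t i).2 := ⟨_, rfl⟩
  rw [← hq, ← hr] at hrel
  rw [← hr]
  have hq1 : 1 ≤ q := by rw [hq]; exact one_le_pow₀ (by norm_num)
  have hq0 : 0 < q := by linarith
  have hq0R : (0 : ℝ) < q := by exact_mod_cast hq0
  congr 1
  have e3 : κ * X + X = (κ + 1) * X := by ring
  rw [e3]
  generalize ⌈κ * X⌉ = A
  generalize ⌈(κ + 1) * X⌉ = B
  rw [← sum_filter]
  symm
  have hge : ∀ (A x : ℤ), ⌈((A : ℝ) + r) / q⌉ ≤ x ↔ A ≤ q * x - r := by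
    intro A x
    rw [Int.ceil_le, div_le_iff₀ hq0R]
    constructor
    · intro h
      have : A + r ≤ x * q := by exact_mod_cast h
      linarith
    · intro h
      have : A + r ≤ x * q := by linarith
      exact_mod_cast this
  apply sum_nbij (fun x => q * x - r)
  · intro x hx
    rw [mem_Ico] at hx
    rw [mem_filter, mem_Ico]
    refine ⟨⟨(hge A x).1 hx.1, ?_⟩, fun l => ⟨_, hrel x l⟩⟩
    by_contra hcon
    push Not at hcon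
    have := (hge B x).2 hcon
    linarith [hx.2]
  · intro x _ x' _ h
    have h' : q * x - r = q * x' - r := h
    have : q * x = q * x' := by linarith
    exact mul_left_cancel₀ hq0.ne' this
  · intro y hy
    rw [mem_coe, mem_filter, mem_Ico] at hy
    obtain ⟨⟨a1, a2⟩, a3⟩ := hy
    choose z hz using a3
    obtain ⟨b1, _, _⟩ := rel_can hmin h0 hz
    rw [← hr, ← hq] at b1
    refine ⟨z i, ?_, ?_⟩
    · rw [mem_coe, mem_Ico]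
      constructor
      · rw [hge]; linarith
      · by_contra hcon
        push Not at hcon
        have := (hge B (z i)).1 hcon
        linarith
    · exact b1.symm
  · intro x _
    apply prod_congr rfl
    intro l _
    rw [Pool.Agent.J4H39.par_eq (hrel x l)]

theorem cgK_can {F : Fin K → ℤ → ℝ} (hF : ∀ i, Iv (F i)) (κ X : ℝ) {t : Fin K → ℤ × ℤ} (hC : Cm t) {i : Fin K}
    (hmin : ∀ l, (t i).1 ≤ (t l).1) (h0 : (t i).1 ≤ 0) :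
    |cgK F κ X t - can F κ X t i| ≤ (2 * |((t i).2 : ℝ)| + 4) / max (X / 3 ^ (-(t i).1).toNat) 1 := by
  obtain ⟨q, hq⟩ : ∃ q : ℤ, q = 3 ^ (-(t i).1).toNat := ⟨_, rfl⟩
  rw [cgK_eq κ X hC hmin h0 hq]
  unfold can ccK
  have hqR : (3 : ℝ) ^ (-(t i).1).toNat = ((q : ℤ) : ℝ) := by rw [hq]; push_cast; rfl
  rw [hqR]
  obtain ⟨r, hr⟩ : ∃ r, r = (t i).2 := ⟨_, rfl⟩
  rw [← hr]
  have hq1 : 1 ≤ q := by rw [hq]; exact one_le_pow₀ (by norm_num)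
  obtain ⟨G, hG⟩ : ∃ G : ℤ → ℝ, G = fun x => ∏ l, F l (3 ^ ee t i l * x + rr t i l) := ⟨_, rfl⟩
  have hGb : ∀ x, |G x| ≤ 1 := fun x => by rw [hG]; exact prodK_bd hF _
  have hmax : (0 : ℝ) < max (X / q) 1 := lt_of_lt_of_le one_pos (le_max_right _ _)
  rw [← sub_div, abs_div, abs_of_pos hmax]
  apply div_le_div_of_nonneg_right _ hmax.le
  have e2 : ∑ n ∈ Finset.Ico ⌈κ * (X / q)⌉ ⌈κ * (X / q) + X / q⌉, ∏ l, F l (3 ^ ee t i l * n + rr t i l) =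
      ∑ n ∈ Finset.Ico ⌈κ * (X / q)⌉ ⌈(κ + 1) * (X / q)⌉, G n := by
    rw [hG]
    have : κ * (X / q) + X / q = (κ + 1) * (X / q) := by ring
    rw [this]
  have e4 : ∀ A B : ℤ, ∑ n ∈ Finset.Ico A B, ∏ l, F l (3 ^ ee t i l * n + rr t i l) = ∑ n ∈ Finset.Ico A B, G n := by
    intro A B
    rw [hG]
  rw [e2, e4]
  have h1 := sum_Ico_diff (B := 1) (by norm_num) hGb ⌈(((⌈κ * X⌉ : ℤ) : ℝ) + r) / q⌉ ⌈(((⌈(κ + 1) * X⌉ : ℤ) : ℝ) + r) / q⌉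
    ⌈κ * (X / q)⌉ ⌈(κ + 1) * (X / q)⌉
  have h2 := ceil_near (κ := κ) (X := X) r hq1
  have h3 := ceil_near (κ := κ + 1) (X := X) r hq1
  linarith

theorem cgK_bd {F : Fin K → ℤ → ℝ} (hF : ∀ i, Iv (F i)) (κ : ℝ) {X : ℝ} (hX : 0 ≤ X) {t : Fin K → ℤ × ℤ} (hC : Cm t)
    {i : Fin K} (hmin : ∀ l, (t i).1 ≤ (t l).1) (h0 : (t i).1 ≤ 0) : |cgK F κ X t| ≤ 3 := by
  obtain ⟨q, hq⟩ : ∃ q : ℤ, q = 3 ^ (-(t i).1).toNat := ⟨_, rfl⟩
  rw [cgK_eq κ X hC hmin h0 hq]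
  have hq1 : 1 ≤ q := by rw [hq]; exact one_le_pow₀ (by norm_num)
  have hq1R : (1 : ℝ) ≤ q := by exact_mod_cast hq1
  have hq0R : (0 : ℝ) < q := by linarith
  have hmax : (0 : ℝ) < max (X / q) 1 := lt_of_lt_of_le one_pos (le_max_right _ _)
  rw [abs_div, abs_of_pos hmax, div_le_iff₀ hmax]
  refine (abs_sum_le_sum_abs _ _).trans ?_
  refine (sum_le_sum fun _ _ => prodK_bd hF _).trans ?_
  rw [sum_const, Int.card_Ico, nsmul_eq_mul, mul_one]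
  obtain ⟨r, hr⟩ : ∃ r, r = (t i).2 := ⟨_, rfl⟩
  rw [← hr]
  have hAB : ⌈κ * X⌉ ≤ ⌈(κ + 1) * X⌉ := Int.ceil_mono (by linarith)
  have hABR : ((⌈κ * X⌉ : ℤ) : ℝ) ≤ ⌈(κ + 1) * X⌉ := by exact_mod_cast hAB
  have hle : ⌈(((⌈κ * X⌉ : ℤ) : ℝ) + r) / q⌉ ≤ ⌈(((⌈(κ + 1) * X⌉ : ℤ) : ℝ) + r) / q⌉ := by
    apply Int.ceil_mono
    apply div_le_div_of_nonneg_right _ hq0R.le
    linarith
  have e1 : (((⌈(((⌈(κ + 1) * X⌉ : ℤ) : ℝ) + r) / q⌉ - ⌈(((⌈κ * X⌉ : ℤ) : ℝ) + r) / q⌉).toNat : ℕ) : ℝ) =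
      (⌈(((⌈(κ + 1) * X⌉ : ℤ) : ℝ) + r) / q⌉ : ℝ) - ⌈(((⌈κ * X⌉ : ℤ) : ℝ) + r) / q⌉ := by
    have := Int.toNat_of_nonneg (sub_nonneg.2 hle)
    exact_mod_cast this
  rw [e1]
  have a1 := Int.ceil_lt_add_one ((((⌈(κ + 1) * X⌉ : ℤ) : ℝ) + r) / q)
  have a2 := Int.le_ceil ((((⌈κ * X⌉ : ℤ) : ℝ) + r) / q)
  have a3 := Int.ceil_lt_add_one ((κ + 1) * X)
  have a4 := Int.le_ceil (κ * X)
  have e2 : (((⌈(κ + 1) * X⌉ : ℤ) : ℝ) + r) / q - (((⌈κ * X⌉ : ℤ) : ℝ) + r) / q =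
      (((⌈(κ + 1) * X⌉ : ℤ) : ℝ) - ⌈κ * X⌉) / q := by ring
  have a5 : (((⌈(κ + 1) * X⌉ : ℤ) : ℝ) - ⌈κ * X⌉) / q ≤ (X + 1) / q :=
    div_le_div_of_nonneg_right (by linarith) hq0R.le
  have a6 : (X + 1) / q = X / q + 1 / q := by ring
  have a7 : 1 / (q : ℝ) ≤ 1 := by rw [div_le_one hq0R]; exact hq1R
  have a8 := le_max_left (X / q) (1 : ℝ)
  have a9 := le_max_right (X / q) (1 : ℝ)
  linarith

theorem ccK_bd {F : Fin K → ℤ → ℝ} (hF : ∀ i, Iv (F i)) (κ : ℝ) {X : ℝ} (hX : 0 ≤ X) (D : Fin K → ℕ) (r : Fin K → ℤ) :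
    |ccK F κ X D r| ≤ 2 := by
  unfold ccK
  have h0 : (0 : ℝ) < max X 1 := lt_of_lt_of_le one_pos (le_max_right _ _)
  rw [abs_div, abs_of_pos h0, div_le_iff₀ h0]
  refine (abs_sum_le_sum_abs _ _).trans ?_
  have h1 : ∑ n ∈ Finset.Ico ⌈κ * X⌉ ⌈κ * X + X⌉, |∏ i, F i (3 ^ D i * n + r i)| ≤
      ∑ n ∈ Finset.Ico ⌈κ * X⌉ ⌈κ * X + X⌉, (1 : ℝ) := sum_le_sum fun _ _ => prodK_bd hF _
  refine h1.trans ?_
  rw [sum_const, Int.card_Ico, nsmul_eq_mul, mul_one]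
  have := toNat_le (κ := κ) hX
  have a1 := le_max_left X 1
  have a2 := le_max_right X 1
  linarith

end Pool.Agent.J4H94.KP
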