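import Mathlib
import Pool.Agent.J4H94.KP.A
import Pool.Agent.J4H94.PC.G1a

set_option autoImplicit false

/-! Project KP, job J4: one aligned stage, end labels of any sign. -/

namespace Pool.Agent.J4H94.KP

open Finset Filter Real
open Pool.Agent.J4H39 (T od ex pb ns rn stP stK lb GK GS Cm DV th0 Per id1 id1_pos id1_neg id1_nonneg id1_le_one par Rel
  ex_mono ex_congr ex_add ex_mul ex_const)
open Pool.Agent.J4H26.PC (Iv)
open Pool.Agent.J4H95.PC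
open Pool.Agent.J4H94.PC (Av Av_bd Av_half abs_half Av_cc Av_shift)
open Pool.Agent.J4H26.KP (ccK cgK EK S_G1K)
open Pool.Agent.J4H39.KP (prodK_bd prodK_diff one_diff Fq)

variable {K : ℕ}

/-- all the classes give the same average -/
theorem coreK {f : Fin K → ℤ → ℝ} (hf : ∀ i, Iv (f i)) {m k a E o : ℕ} {η : ℝ}
    (hη : ∀ r : ℤ, |r| ≤ 4 ^ (m + 1 + a) → ns k (0, r) ≤ η) {e : Fin K → ℕ} (he : ∀ i, e i ≤ a) (hE : E ≤ m)
    (hmk : m + k ≤ o) (ρ : Fin K → ℤ) (v₀ : ℤ) {Y : ℕ} (hY : 1 ≤ Y) (c₁ : ℤ) (h0 : 0 ≤ c₁) (h1 : c₁ < 3 ^ (m - E)) :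
    |∑ i ∈ range (3 ^ (o - m) * Y), (1 + ∏ l, f l (3 ^ e l * (c₁ + 3 ^ (m - E) * (3 ^ (o - m) * v₀ + (i : ℕ))) + ρ l)) / 2 -
      ((3 ^ (o - m) * Y : ℕ) : ℝ) * ((1 + Av (fun t => ∏ l, f l (3 ^ e l * t + ρ l)) (3 ^ (o - E)) v₀ Y) / 2)| ≤
      2 * K * η * ((3 ^ (o - m) * Y : ℕ) : ℝ) := by
  have hη0 : 0 ≤ η := (Pool.Agent.J4H39.ns_nonneg k (0, 0)).trans (hη 0 (by simp))
  have hY0 : (0 : ℝ) < Y := by exact_mod_cast hY
  obtain ⟨Z, hZ⟩ : ∃ Z, Z = 3 ^ (o - m) * Y := ⟨_, rfl⟩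
  rw [← hZ]
  have hkZ : 2 ^ k ≤ Z := by
    rw [hZ]
    calc 2 ^ k ≤ 3 ^ k := Nat.pow_le_pow_left (by norm_num) k
      _ ≤ 3 ^ (o - m) := Nat.pow_le_pow_right (by norm_num) (by omega)
      _ ≤ 3 ^ (o - m) * Y := Nat.le_mul_of_pos_right _ hY
  have hkZr : (2 : ℝ) ^ k ≤ Z := by exact_mod_cast hkZ
  have hZ0 : (0 : ℝ) < Z := lt_of_lt_of_le (by positivity) hkZr
  obtain ⟨H, hH⟩ : ∃ H : ℤ → ℝ, H = fun t => (1 + ∏ l, f l (3 ^ e l * t + ρ l)) / 2 := ⟨_, rfl⟩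
  obtain ⟨A, hA⟩ : ∃ A : ℤ → ℝ, A = fun c => ∑ i ∈ range Z, H (c + 3 ^ (m - E) * (3 ^ (o - m) * v₀ + (i : ℕ))) :=
    ⟨_, rfl⟩
  have claim1 : ∀ c c' : ℤ, 0 ≤ c → c < 3 ^ (m - E) → 0 ≤ c' → c' < 3 ^ (m - E) → |A c - A c'| ≤ 2 * K * η * Z := by
    intro c c' a1 a2 a3 a4
    obtain ⟨h, hh⟩ : ∃ h, h = c - c' := ⟨_, rfl⟩
    have hhb : |h| ≤ 4 ^ m := by
      have b1 : (3 : ℤ) ^ (m - E) ≤ 4 ^ m :=
        (pow_le_pow_left₀ (by norm_num) (by norm_num) _).trans (pow_le_pow_right₀ (by norm_num) (by omega))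
      rw [hh, abs_le]
      constructor <;> linarith
    have hb : ∀ l, ns k (0, 3 ^ e l * h) ≤ η := by
      intro l
      apply hη
      rw [abs_mul, abs_of_pos (by positivity : (0 : ℤ) < 3 ^ e l)]
      have b2 : (3 : ℤ) ^ e l ≤ 4 ^ a :=
        (pow_le_pow_left₀ (by norm_num) (by norm_num) (e l)).trans (pow_le_pow_right₀ (by norm_num) (he l))
      calc (3 : ℤ) ^ e l * |h| ≤ 4 ^ a * 4 ^ m := mul_le_mul b2 hhb (abs_nonneg _) (by positivity)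
        _ = 4 ^ (a + m) := by rw [pow_add]
        _ ≤ 4 ^ (m + 1 + a) := pow_le_pow_right₀ (by norm_num) (by omega)
    rw [hA]
    simp only
    rw [← sum_sub_distrib]
    refine (abs_sum_le_sum_abs _ _).trans ?_
    have hpt : ∀ i ∈ range Z, |H (c + 3 ^ (m - E) * (3 ^ (o - m) * v₀ + (i : ℕ))) -
        H (c' + 3 ^ (m - E) * (3 ^ (o - m) * v₀ + (i : ℕ)))| ≤
        ∑ l, id1 (rn stP k (0, 3 ^ e l * h) (3 ^ (e l + (m - E)) * ((i : ℕ) : ℤ) +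
          (3 ^ e l * (c' + 3 ^ (m - E) * (3 ^ (o - m) * v₀)) + ρ l)) ≠ (0, 0)) := by
      intro i _
      obtain ⟨z, hz⟩ : ∃ z : ℤ, z = c' + 3 ^ (m - E) * (3 ^ (o - m) * v₀ + (i : ℕ)) := ⟨_, rfl⟩
      have e1 : c + 3 ^ (m - E) * (3 ^ (o - m) * v₀ + (i : ℕ)) = z + h := by rw [hz, hh]; ring
      have e3 : ∀ l, 3 ^ (e l + (m - E)) * ((i : ℕ) : ℤ) + (3 ^ e l * (c' + 3 ^ (m - E) * (3 ^ (o - m) * v₀)) + ρ l) =
          3 ^ e l * z + ρ l := by intro l; rw [hz, pow_add]; ring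
      rw [e1, ← hz, hH]
      simp only [e3]
      have e5 : (1 + ∏ l, f l (3 ^ e l * (z + h) + ρ l)) / 2 - (1 + ∏ l, f l (3 ^ e l * z + ρ l)) / 2 =
          (∏ l, f l (3 ^ e l * (z + h) + ρ l) - ∏ l, f l (3 ^ e l * z + ρ l)) / 2 := by ring
      rw [e5, abs_div, abs_of_pos (by norm_num : (0 : ℝ) < 2)]
      have hpd := prodK_diff hf (fun l => 3 ^ e l * z + ρ l) (fun l => 3 ^ e l * (z + h) + ρ l)
      have h6 : ∑ l, |f l (3 ^ e l * (z + h) + ρ l) - f l (3 ^ e l * z + ρ l)| ≤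
          ∑ l, 2 * id1 (rn stP k (0, 3 ^ e l * h) (3 ^ e l * z + ρ l) ≠ (0, 0)) := by
        apply sum_le_sum
        intro l _
        have e7 : 3 ^ e l * (z + h) + ρ l = 3 ^ e l * z + ρ l + 3 ^ e l * h := by ring
        rw [e7]
        exact one_diff (hf l) (Pool.Agent.J4H39.rel_zero (3 ^ e l * h) (3 ^ e l * z + ρ l)) k
      rw [← mul_sum] at h6
      linarith
    refine (sum_le_sum hpt).trans ?_
    rw [sum_comm]
    have q : ∀ l ∈ (univ : Finset (Fin K)), ∑ i ∈ range Z, id1 (rn stP k (0, 3 ^ e l * h) (3 ^ (e l + (m - E)) * ((i : ℕ) : ℤ) +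
          (3 ^ e l * (c' + 3 ^ (m - E) * (3 ^ (o - m) * v₀)) + ρ l)) ≠ (0, 0)) ≤ 2 * η * Z := by
      intro l _
      have q2 := Pool.Agent.J4H39.cnt_aff (Pool.Agent.J4H39.per_ns k (0, 3 ^ e l * h))
        (Pool.Agent.J4H39.pow3_odd (e l + (m - E))) (3 ^ e l * (c' + 3 ^ (m - E) * (3 ^ (o - m) * v₀)) + ρ l) Z
      have q4 : ((Z : ℝ) + 2 ^ k) * pb k (fun y => rn stP k (0, 3 ^ e l * h) y ≠ (0, 0)) ≤ (2 * Z) * η :=
        mul_le_mul (by linarith) (hb l) (Pool.Agent.J4H39.pb_nonneg _ _) (by positivity)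
      linarith
    refine (sum_le_sum q).trans (le_of_eq ?_)
    rw [sum_const, card_univ, Fintype.card_fin, nsmul_eq_mul]
    ring
  obtain ⟨V, hV⟩ : ∃ V, V = (1 + Av (fun t => ∏ l, f l (3 ^ e l * t + ρ l)) (3 ^ (o - E)) v₀ Y) / 2 := ⟨_, rfl⟩
  rw [← hV]
  -- the average over the classes
  have claim2 : (Z : ℝ) * V = (∑ c₀ ∈ range (3 ^ (m - E)), A ((c₀ : ℕ) : ℤ)) / 3 ^ (m - E) := by
    have e1 : 3 ^ (o - E) * Y = 3 ^ (m - E) * Z := by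
      rw [hZ, ← mul_assoc, ← pow_add]; congr 2; omega
    have e1r : (((3 ^ (o - E) : ℕ) : ℝ)) * Y = 3 ^ (m - E) * Z := by exact_mod_cast e1
    rw [hV, Av_half _ _ (Nat.one_le_pow _ _ (by norm_num)) hY, e1, Pool.Agent.J4H39.sum_block, sum_comm, e1r]
    have e2 : ∑ y ∈ range (3 ^ (m - E)), ∑ x ∈ range Z, (1 + ∏ l, f l (3 ^ e l * (((3 ^ (o - E) : ℕ) : ℤ) * v₀ +
        ((y + 3 ^ (m - E) * x : ℕ) : ℤ)) + ρ l)) / 2 = ∑ c₀ ∈ range (3 ^ (m - E)), A ((c₀ : ℕ) : ℤ) := by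
      apply sum_congr rfl
      intro c₀ _
      rw [hA, hH]
      simp only
      apply sum_congr rfl
      intro i _
      have e3 : (3 : ℤ) ^ (o - E) = 3 ^ (m - E) * 3 ^ (o - m) := by rw [← pow_add]; congr 1; omega
      have e4 : ((3 ^ (o - E) : ℕ) : ℤ) * v₀ + ((c₀ + 3 ^ (m - E) * i : ℕ) : ℤ) =
          (c₀ : ℤ) + 3 ^ (m - E) * (3 ^ (o - m) * v₀ + (i : ℕ)) := by
        push_cast
        rw [e3]; ring
      rw [e4]
    rw [e2]
    field_simp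
  have hp : (0 : ℝ) < 3 ^ (m - E) := by positivity
  have e5 : A c₁ - Z * V = (∑ c₀ ∈ range (3 ^ (m - E)), (A c₁ - A ((c₀ : ℕ) : ℤ))) / 3 ^ (m - E) := by
    rw [claim2, sum_sub_distrib, sum_const, card_range, nsmul_eq_mul]
    push_cast
    field_simp
  have hfin : |A c₁ - Z * V| ≤ 2 * K * η * Z := by
    rw [e5, abs_div, abs_of_pos hp, div_le_iff₀ hp]
    refine (abs_sum_le_sum_abs _ _).trans ?_
    have : ∑ c₀ ∈ range (3 ^ (m - E)), |A c₁ - A ((c₀ : ℕ) : ℤ)| ≤ ∑ c₀ ∈ range (3 ^ (m - E)), 2 * K * η * Z := by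
      apply sum_le_sum
      intro c₀ hc₀
      rw [mem_range] at hc₀
      exact claim1 c₁ _ h0 h1 (by positivity) (by exact_mod_cast hc₀)
    rw [sum_const, card_range, nsmul_eq_mul] at this
    push_cast at this
    linarith
  rw [hA, hH] at hfin
  exact hfin

/-- a form with the smallest exponent -/
noncomputable def mi [Nonempty (Fin K)] (t : Fin K → ℤ × ℤ) : Fin K :=
  (Finite.exists_min (fun i => (t i).1)).choose

theorem mi_spec [Nonempty (Fin K)] (t : Fin K → ℤ × ℤ) (l : Fin K) : (t (mi t)).1 ≤ (t l).1 :=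
  (Finite.exists_min (fun i => (t i).1)).choose_spec l

/-- the value at the label -/
noncomputable def VK [Nonempty (Fin K)] (f : Fin K → ℤ → ℝ) (v₀ : ℤ) (Y o : ℕ) (t : Fin K → ℤ × ℤ) : ℝ :=
  Av (fun x => ∏ l, f l (3 ^ ee t (mi t) l * x + rr t (mi t) l)) (3 ^ (o - (-(t (mi t)).1).toNat)) v₀ Y

theorem VK_bd [Nonempty (Fin K)] {f : Fin K → ℤ → ℝ} (hf : ∀ i, Iv (f i)) (v₀ : ℤ) {Y : ℕ} (hY : 1 ≤ Y) (o : ℕ)
    (t : Fin K → ℤ × ℤ) : |VK f v₀ Y o t| ≤ 1 :=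
  Av_bd (fun _ => prodK_bd hf _) (Nat.one_le_pow _ _ (by norm_num)) hY

/-- one stage, aligned intervals, end labels of any sign -/
theorem alignedGK [Nonempty (Fin K)] {f : Fin K → ℤ → ℝ} (hf : ∀ i, Iv (f i)) {s : Fin K → ℤ × ℤ} (hs : ∀ i, 0 ≤ (s i).1)
    {i₀ : Fin K} (hi₀ : s i₀ = (0, 0)) {j k m a b o₀ : ℕ} {η ε : ℝ}
    (hmk : m + k ≤ o₀) (ham : a ≤ m) (hη : ∀ r : ℤ, |r| ≤ 4 ^ (m + 1 + 2 * a) → ns k (0, r) ≤ η)
    (v₀ : ℤ) {Y : ℕ} (hY : 1 ≤ Y) (hε : (4 : ℝ) ^ b + 1 ≤ ε * Y) (Lg : ℕ × (Fin K → ℤ × ℤ) → Prop)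
    (hL : ∀ μ, Lg μ → o₀ ≤ μ.1 ∧ GK a b μ.2) :
    |Av (fun n => ∏ i, f i (3 ^ (s i).1.toNat * n + (s i).2)) (2 ^ j) v₀ Y -
      ex j (fun w => VK f v₀ Y (od j w) (rn stK j s w))| ≤
      2 * (DV stK j s m + (2 * K * η + ε) + pb j (fun w => ¬ Lg (lb stK j s w))) := by
  classical
  have hη0 : 0 ≤ η := (Pool.Agent.J4H39.ns_nonneg k (0, 0)).trans (hη 0 (by simp))
  have hY0 : (0 : ℝ) < Y := by exact_mod_cast hY
  have hε0 : 0 ≤ ε := by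
    by_contra hcon
    push Not at hcon
    have : ε * Y < 0 := mul_neg_of_neg_of_pos hcon hY0
    have : (0 : ℝ) < 4 ^ b := by positivity
    linarith
  have hFp : ∀ (s : Fin K → ℤ × ℤ) (z : ℤ), |Fq f s z| ≤ 1 := fun s z => prodK_bd hf (fun i => par (s i) z)
  obtain ⟨gg, hgg⟩ : ∃ gg : ℕ × (Fin K → ℤ × ℤ) → ℤ → ℝ, gg = fun μ z => (1 + Fq f μ.2 z) / 2 := ⟨_, rfl⟩
  obtain ⟨V, hV⟩ : ∃ V : ℕ × (Fin K → ℤ × ℤ) → ℝ,
    V = fun μ => (1 + VK f v₀ Y μ.1 μ.2) / 2 := ⟨_, rfl⟩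
  -- the companions at the end
  have hrels : ∀ (n : ℤ) i, Rel (rn stK j s n i) (T^[j] n) (T^[j] (3 ^ (s i).1.toNat * n + (s i).2)) := by
    intro n i
    rw [Pool.Agent.J4H39.rn_stK_apply]
    have hsi : s i = (((s i).1.toNat : ℤ), (s i).2) := by rw [Int.toNat_of_nonneg (hs i)]
    have h6 := (Pool.Agent.J4H39.rel_rn (Pool.Agent.J4H39.rel_nat (s i).1.toNat (s i).2 n) j).1
    rw [← hsi] at h6
    exact h6
  have key := Pool.Agent.J4H39.stage stK s (j := j) (m := m) gg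
    (fun μ z => by rw [hgg]; exact (abs_half (hFp _ _)).1)
    (fun μ z => by rw [hgg]; exact (abs_half (hFp _ _)).2) V
    (fun μ => by rw [hV]; exact (abs_half (VK_bd hf _ hY _ _)).1)
    (fun μ => by rw [hV]; exact (abs_half (VK_bd hf _ hY _ _)).2) v₀ Y (δ := 2 * K * η + ε) (by positivity)
    Lg (fun μ h => by have := (hL μ h).1; omega) (by
      intro w hw hgood c hc0 hc1 hdvd
      obtain ⟨h1, h2⟩ := hL _ hgood
      have hrw := hrels ((w : ℕ) : ℤ)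
      have hz0 : rn stK j s ((w : ℕ) : ℤ) i₀ = (0, 0) := by
        rw [Pool.Agent.J4H39.rn_stK_apply, hi₀, Pool.Agent.J4H39.rn_zero]
      obtain ⟨μ, hμ⟩ : ∃ μ, μ = lb stK j s ((w : ℕ) : ℤ) := ⟨_, rfl⟩
      have hμ2 : rn stK j s ((w : ℕ) : ℤ) = μ.2 := by rw [hμ]; rfl
      rw [hμ2] at hrw hz0
      rw [← hμ] at h1 h2 ⊢
      obtain ⟨o, ho⟩ : ∃ o, o = μ.1 := ⟨_, rfl⟩
      rw [← ho] at h1 ⊢
      obtain ⟨t, ht⟩ : ∃ t, t = μ.2 := ⟨_, rfl⟩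
      rw [← ht] at h2 hrw hz0
      have hgs : gg μ = fun z => (1 + Fq f t z) / 2 := by rw [hgg, ht]
      have hVs : V μ = (1 + VK f v₀ Y o t) / 2 := by rw [hV, ht, ho]
      rw [hgs, hVs]
      unfold VK
      obtain ⟨i₁, hi₁⟩ : ∃ i₁, i₁ = mi t := ⟨_, rfl⟩
      rw [← hi₁]
      have hmin : ∀ l, (t i₁).1 ≤ (t l).1 := fun l => by rw [hi₁]; exact mi_spec t l
      have ht0 : (t i₁).1 ≤ 0 := by
        have := hmin i₀
        rw [hz0] at this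
        exact this
      obtain ⟨hy, _, hrel⟩ := rel_can hmin ht0 hrw
      obtain ⟨d, hd⟩ : ∃ d, d = (-(t i₁).1).toNat := ⟨_, rfl⟩
      rw [← hd] at hy hrel ⊢
      obtain ⟨r', hr'⟩ : ∃ r', r' = (t i₁).2 := ⟨_, rfl⟩
      rw [← hr'] at hy hrel
      have hda : d ≤ a := by
        have h3 := (h2 i₁).1
        rw [abs_le] at h3
        omega
      have hdm : d ≤ m := hda.trans ham
      have hrb : |r'| ≤ 4 ^ b := by rw [hr']; exact (h2 i₁).2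
      have hea : ∀ l, ee t i₁ l ≤ 2 * a := by
        intro l
        have h3 := (h2 i₁).1
        have h4 := (h2 l).1
        rw [abs_le] at h3 h4
        unfold ee
        omega
      -- the class is compatible
      have hdv1 : (3 : ℤ) ^ d ∣ T^[j] ((w : ℕ) : ℤ) + r' := ⟨_, by rw [hy]; ring⟩
      have hdv2 : (3 : ℤ) ^ d ∣ T^[j] ((w : ℕ) : ℤ) - c := (pow_dvd_pow 3 hdm).trans hdvd
      have hdv3 : (3 : ℤ) ^ d ∣ c + r' := by
        have := dvd_sub hdv1 hdv2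
        have e1 : T^[j] ((w : ℕ) : ℤ) + r' - (T^[j] ((w : ℕ) : ℤ) - c) = c + r' := by ring
        rwa [e1] at this
      obtain ⟨ρ, hρ⟩ : ∃ ρ, ρ = c % 3 ^ d := ⟨_, rfl⟩
      obtain ⟨c₁, hc₁⟩ : ∃ c₁, c₁ = c / 3 ^ d := ⟨_, rfl⟩
      have hp3 : (0 : ℤ) < 3 ^ d := by positivity
      have hcc : 3 ^ d * c₁ + ρ = c := by rw [hρ, hc₁]; exact Int.mul_ediv_add_emod c (3 ^ d)
      have hρ0 : 0 ≤ ρ := by rw [hρ]; exact Int.emod_nonneg _ hp3.ne'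
      have hρ1 : ρ < 3 ^ d := by rw [hρ]; exact Int.emod_lt_of_pos _ hp3
      have hc10 : 0 ≤ c₁ := by rw [hc₁]; exact Int.ediv_nonneg hc0 hp3.le
      have hc11 : c₁ < 3 ^ (m - d) := by
        have e1 : (3 : ℤ) ^ m = 3 ^ d * 3 ^ (m - d) := by rw [← pow_add]; congr 1; omega
        have : (3 : ℤ) ^ d * c₁ < 3 ^ d * 3 ^ (m - d) := by rw [← e1]; linarith
        exact lt_of_mul_lt_mul_left this hp3.le
      have hdv4 : (3 : ℤ) ^ d ∣ ρ + r' := by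
        have : ρ + r' = c + r' - 3 ^ d * c₁ := by rw [← hcc]; ring
        rw [this]
        exact dvd_sub hdv3 (dvd_mul_right _ _)
      obtain ⟨q₀, hq₀⟩ := hdv4
      have hc := coreK hf (a := 2 * a) hη hea hdm (hmk.trans h1) (fun l => 3 ^ ee t i₁ l * q₀ + rr t i₁ l) v₀ hY c₁ hc10 hc11
      -- the values of the function
      have e9 : ∑ i ∈ range (3 ^ (o - m) * Y), (fun z => (1 + Fq f t z) / 2)
          (c + 3 ^ m * (3 ^ (o - m) * v₀ + (i : ℕ))) = ∑ i ∈ range (3 ^ (o - m) * Y),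
          (1 + ∏ l, f l (3 ^ ee t i₁ l * (c₁ + 3 ^ (m - d) * (3 ^ (o - m) * v₀ + (i : ℕ))) +
            (3 ^ ee t i₁ l * q₀ + rr t i₁ l))) / 2 := by
        apply sum_congr rfl
        intro i _
        obtain ⟨x, hx⟩ : ∃ x : ℤ, x = c₁ + 3 ^ (m - d) * (3 ^ (o - m) * v₀ + (i : ℕ)) := ⟨_, rfl⟩
        have e1 : (3 : ℤ) ^ m = 3 ^ d * 3 ^ (m - d) := by rw [← pow_add]; congr 1; omega
        have e3 : c + 3 ^ m * (3 ^ (o - m) * v₀ + (i : ℕ)) = 3 ^ d * (x + q₀) - r' := by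
          rw [hx, ← hcc, e1]
          linear_combination hq₀
        simp only
        rw [e3, ← hx]
        unfold Fq
        congr 2
        apply prod_congr rfl
        intro l _
        rw [Pool.Agent.J4H39.par_eq (hrel (x + q₀) l)]
        congr 1
        ring
      rw [e9]
      -- the shift
      have e3 : (fun x => ∏ l, f l (3 ^ ee t i₁ l * x + (3 ^ ee t i₁ l * q₀ + rr t i₁ l))) =
          fun x => (fun p => ∏ l, f l (3 ^ ee t i₁ l * p + rr t i₁ l)) (x + q₀) := by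
        funext x
        simp only
        apply prod_congr rfl
        intro l _
        congr 1
        ring
      rw [e3] at hc
      have hsh := Av_shift (F := fun p => ∏ l, f l (3 ^ ee t i₁ l * p + rr t i₁ l)) (fun n => prodK_bd hf _)
        (M := 3 ^ (o - d)) (Nat.one_le_pow _ _ (by norm_num)) v₀ q₀ hY
      have hqb : |q₀| ≤ 4 ^ b + 1 := by
        have a1 : 3 ^ d * |q₀| ≤ 3 ^ d * (4 ^ b + 1) := by
          have a2 : 3 ^ d * |q₀| = |ρ + r'| := by rw [hq₀, abs_mul, abs_of_pos hp3]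
          have a3 := abs_add_le ρ r'
          rw [abs_of_nonneg hρ0] at a3
          have a4 : (1 : ℤ) ≤ 3 ^ d := by linarith
          have a5 : (4 : ℤ) ^ b ≤ 3 ^ d * 4 ^ b := le_mul_of_one_le_left (by positivity) a4
          rw [a2]
          linarith
        exact le_of_mul_le_mul_left a1 hp3
      have hqR : |(q₀ : ℝ)| ≤ 4 ^ b + 1 := by exact_mod_cast hqb
      have hsh2 : 2 * |(q₀ : ℝ)| / Y ≤ 2 * ε := by
        rw [div_le_iff₀ hY0]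
        linarith
      obtain ⟨A₁, hA₁⟩ : ∃ A₁, A₁ = Av (fun x => (fun p => ∏ l, f l (3 ^ ee t i₁ l * p + rr t i₁ l)) (x + q₀)) (3 ^ (o - d)) v₀ Y :=
        ⟨_, rfl⟩
      obtain ⟨A₂, hA₂⟩ : ∃ A₂, A₂ = Av (fun p => ∏ l, f l (3 ^ ee t i₁ l * p + rr t i₁ l)) (3 ^ (o - d)) v₀ Y := ⟨_, rfl⟩
      rw [← hA₁] at hc
      rw [← hA₁, ← hA₂] at hsh
      rw [← hA₂]
      have hA12 : |A₁ - A₂| ≤ 2 * ε := hsh.trans hsh2
      have hZ0 : (0 : ℝ) ≤ ((3 ^ (o - m) * Y : ℕ) : ℝ) := by positivity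
      have hZA : |((3 ^ (o - m) * Y : ℕ) : ℝ) * ((1 + A₁) / 2) - ((3 ^ (o - m) * Y : ℕ) : ℝ) * ((1 + A₂) / 2)| ≤
          ε * ((3 ^ (o - m) * Y : ℕ) : ℝ) := by
        have e5 : ((3 ^ (o - m) * Y : ℕ) : ℝ) * ((1 + A₁) / 2) - ((3 ^ (o - m) * Y : ℕ) : ℝ) * ((1 + A₂) / 2) =
            ((3 ^ (o - m) * Y : ℕ) : ℝ) * ((A₁ - A₂) / 2) := by ring
        rw [e5, abs_mul, abs_of_nonneg hZ0, abs_div, abs_of_pos (by norm_num : (0 : ℝ) < 2), mul_comm]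
        apply mul_le_mul_of_nonneg_right _ hZ0
        linarith
      refine (abs_sub_le _ _ _).trans ((add_le_add hc hZA).trans ?_)
      linarith)
  -- the identity
  obtain ⟨G, hG⟩ : ∃ G : ℤ → ℝ, G = fun n => ∏ i, f i (3 ^ (s i).1.toNat * n + (s i).2) := ⟨_, rfl⟩
  have e1 : ex j (fun w => ∑ v ∈ range Y, gg (lb stK j s w) (T^[j] w % 3 ^ od j w + 3 ^ od j w * (v₀ + (v : ℕ)))) =
      (∑ u ∈ range (2 ^ j * Y), (1 + G (((2 ^ j : ℕ) : ℤ) * v₀ + (u : ℕ))) / 2) / 2 ^ j := by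
    unfold ex
    congr 1
    rw [Pool.Agent.J4H39.sum_block, sum_comm]
    apply sum_congr rfl
    intro v _
    apply sum_congr rfl
    intro w hw
    rw [mem_range] at hw
    rw [Pool.Agent.J4H39.T_mod j (by positivity) (by exact_mod_cast hw), ← Pool.Agent.J4H39.T_add]
    obtain ⟨n, hn⟩ : ∃ n : ℤ, n = ((w : ℕ) : ℤ) + 2 ^ j * (v₀ + (v : ℕ)) := ⟨_, rfl⟩
    have h2 : (lb stK j s ((w : ℕ) : ℤ)).2 = rn stK j s n := by
      unfold lb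
      simp only
      rw [hn]
      exact (Pool.Agent.J4H39.per_rn stK _ (le_refl j) ((w : ℕ) : ℤ) (v₀ + (v : ℕ))).symm
    rw [hgg]
    simp only
    rw [h2, ← hn]
    unfold Fq
    have h4 : ((2 ^ j : ℕ) : ℤ) * v₀ + ((w + 2 ^ j * v : ℕ) : ℤ) = n := by rw [hn]; push_cast; ring
    rw [h4, hG]
    simp only
    congr 2
    apply prod_congr rfl
    intro i _
    rw [Pool.Agent.J4H39.par_eq (hrels n i), Iv_iter (hf i)]
  rw [e1] at key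
  have e2 : (1 + Av G (2 ^ j) v₀ Y) / 2 = (∑ u ∈ range (2 ^ j * Y), (1 + G (((2 ^ j : ℕ) : ℤ) * v₀ + (u : ℕ))) / 2) /
      2 ^ j / Y := by
    rw [Av_half G v₀ (Nat.one_le_pow _ _ (by norm_num)) hY]
    push_cast
    rw [div_div]
  have e3 : ex j (fun w => V (lb stK j s w)) =
      (1 + ex j (fun w => VK f v₀ Y (od j w) (rn stK j s w))) / 2 := by
    have e4 : ∀ w, V (lb stK j s w) = 1 / 2 + (1 / 2) * VK f v₀ Y (od j w) (rn stK j s w) := by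
      intro w
      rw [hV]
      unfold lb
      simp only
      ring
    rw [ex_congr e4, ex_add, ex_const, ex_mul]; ring
  rw [e3] at key
  obtain ⟨S, hS⟩ : ∃ S : ℝ, S = (∑ u ∈ range (2 ^ j * Y), (1 + G (((2 ^ j : ℕ) : ℤ) * v₀ + (u : ℕ))) / 2) / 2 ^ j :=
    ⟨_, rfl⟩
  rw [← hS] at key e2
  obtain ⟨E, hE⟩ : ∃ E : ℝ, E = ex j (fun w => VK f v₀ Y (od j w) (rn stK j s w)) := ⟨_, rfl⟩
  rw [← hE] at key ⊢
  rw [← hG]
  have e6 : Av G (2 ^ j) v₀ Y - E = 2 * ((S - Y * ((1 + E) / 2)) / Y) := by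
    have : S = Y * ((1 + Av G (2 ^ j) v₀ Y) / 2) := by rw [e2]; field_simp
    rw [this]
    field_simp
    ring
  rw [e6, abs_mul, abs_of_pos (by norm_num : (0 : ℝ) < 2), abs_div, abs_of_pos hY0]
  apply mul_le_mul_of_nonneg_left _ (by norm_num)
  rw [div_le_iff₀ hY0]
  linarith

end Pool.Agent.J4H94.KP
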