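import Mathlib
import Pool.Agent.J4H94.KP.B
import Pool.Agent.J4H94.PC.Ft
import Pool.Agent.J4H79.PC2.A0

set_option autoImplicit false

/-! Project KP, job J4: `S_G1K`, one stage, from any compatible labels. -/

namespace Pool.Agent.J4H94.KP

open Finset Filter Real
open Pool.Agent.J4H39 (T od ex pb ns rn stP stK lb GK GS Cm DV th0 Per id1 id1_pos id1_neg id1_nonneg id1_le_one par Rel
  ex_mono ex_congr ex_add ex_mul ex_const)
open Pool.Agent.J4H26.PC (Iv)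
open Pool.Agent.J4H95.PC
open Pool.Agent.J4H94.PC (Av Av_bd Av_half abs_half Av_cc Av_shift ex_diff ex_abs_bd eta_rate)
open Pool.Agent.J4H26.KP (ccK cgK EK S_G1K)
open Pool.Agent.J4H39.KP (prodK_bd prodK_diff one_diff Fq)

variable {K : ℕ}

/-- one stage, in the base of one of the forms -/
theorem stage_can [Nonempty (Fin K)] {f : Fin K → ℤ → ℝ} (hf : ∀ i, Iv (f i)) {s : Fin K → ℤ × ℤ} (hs : ∀ i, 0 ≤ (s i).1)
    {i₀ : Fin K} (hi₀ : s i₀ = (0, 0)) {j k m a b o₀ : ℕ} {η ε : ℝ}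
    (hmk : m + k ≤ o₀) (ham : a ≤ m) (hη : ∀ r : ℤ, |r| ≤ 4 ^ (m + 1 + 2 * a) → ns k (0, r) ≤ η)
    (Lg : ℕ × (Fin K → ℤ × ℤ) → Prop) (hL : ∀ μ, Lg μ → o₀ ≤ μ.1 ∧ GK a b μ.2) (κ : ℝ) {X : ℝ} (hX : (2 : ℝ) ^ (j + 1) ≤ X)
    (hε : 2 * ((4 : ℝ) ^ b + 1) ≤ ε * (X / 2 ^ j)) :
    |ccK f κ X (fun i => (s i).1.toNat) (fun i => (s i).2) -
      ex j (fun y => can f κ (3 ^ od j y * X / 2 ^ j) (rn stK j s y) (mi (rn stK j s y)))| ≤
      10 * (2 ^ j / X) + 2 * DV stK j s m + 4 * K * η + 2 * ε + 5 * pb j (fun w => ¬ Lg (lb stK j s w)) := by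
  classical
  obtain ⟨U, hUd⟩ : ∃ U : ℝ, U = X / 2 ^ j := ⟨_, rfl⟩
  have h2j : (0 : ℝ) < 2 ^ j := by positivity
  have hX0 : 0 < X := lt_of_lt_of_le (by positivity) hX
  have hU : 2 ≤ U := by
    rw [hUd, le_div_iff₀ h2j]
    calc 2 * (2 : ℝ) ^ j = 2 ^ (j + 1) := by ring
      _ ≤ X := hX
  have hU0 : 0 < U := by linarith
  rw [← hUd] at hε
  have hε0 : 0 ≤ ε := by
    by_contra hcon
    push Not at hcon
    have : ε * U < 0 := mul_neg_of_neg_of_pos hcon hU0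
    have : (0 : ℝ) < 4 ^ b := by positivity
    linarith
  obtain ⟨v₀, hv₀⟩ : ∃ v₀, v₀ = ⌊κ * U⌋ := ⟨_, rfl⟩
  obtain ⟨Y, hY⟩ : ∃ Y, Y = (⌊κ * U + U⌋ - ⌊κ * U⌋).toNat := ⟨_, rfl⟩
  have f1 := Int.floor_le (κ * U)
  have f4 := Int.lt_floor_add_one (κ * U + U)
  have hlt : ⌊κ * U⌋ < ⌊κ * U + U⌋ := by
    have : ((⌊κ * U⌋ : ℤ) : ℝ) < ((⌊κ * U + U⌋ : ℤ) : ℝ) := by linarith
    exact_mod_cast this
  have hY1 : 1 ≤ Y := by omega
  have hYU : U / 2 ≤ Y := by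
    have e1 : ((Y : ℕ) : ℤ) = ⌊κ * U + U⌋ - ⌊κ * U⌋ := by rw [hY]; exact Int.toNat_of_nonneg (by omega)
    have e2 : (Y : ℝ) = (⌊κ * U + U⌋ : ℝ) - ⌊κ * U⌋ := by exact_mod_cast e1
    rw [e2]
    linarith
  have hεY : (4 : ℝ) ^ b + 1 ≤ ε * Y := by
    have : ε * (U / 2) ≤ ε * Y := mul_le_mul_of_nonneg_left hYU hε0
    linarith
  -- the left side
  have hXU : X = ((2 ^ j : ℕ) : ℝ) * U := by rw [hUd]; push_cast; field_simp
  have s1 : |ccK f κ X (fun i => (s i).1.toNat) (fun i => (s i).2) -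
      Av (fun n => ∏ i, f i (3 ^ (s i).1.toNat * n + (s i).2)) (2 ^ j) v₀ Y| ≤ 5 / U := by
    have := Av_cc (F := fun n => ∏ i, f i (3 ^ (s i).1.toNat * n + (s i).2)) (fun n => prodK_bd hf _)
      (M := 2 ^ j) (Nat.one_le_pow _ _ (by norm_num)) (κ := κ) hU
    rw [← hXU, ← hY, ← hv₀] at this
    exact this
  have s2 := alignedGK hf hs hi₀ (j := j) hmk ham hη v₀ hY1 hεY Lg hL
  -- the right side
  have hpt : ∀ w, |VK f v₀ Y (od j w) (rn stK j s w) -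
      can f κ (3 ^ od j w * X / 2 ^ j) (rn stK j s w) (mi (rn stK j s w))| ≤
      5 / U + 3 * id1 (¬ Lg (lb stK j s w)) := by
    intro w
    have h5 : 0 ≤ 5 / U := by positivity
    have hXw : 3 ^ od j w * X / 2 ^ j = ((3 ^ od j w : ℕ) : ℝ) * U := by rw [hUd]; push_cast; ring
    by_cases hg1 : Lg (lb stK j s w)
    · rw [id1_neg (fun h => h hg1), mul_zero, add_zero]
      obtain ⟨h6, h7⟩ := hL _ hg1
      have h7' : GK a b (rn stK j s w) := h7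
      have h8 : o₀ ≤ od j w := h6
      obtain ⟨t, ht⟩ : ∃ t, t = rn stK j s w := ⟨_, rfl⟩
      rw [← ht] at h7' ⊢
      unfold VK can
      obtain ⟨i₁, hi₁⟩ : ∃ i₁, i₁ = mi t := ⟨_, rfl⟩
      rw [← hi₁, abs_sub_comm, hXw]
      have hda : (-(t i₁).1).toNat ≤ od j w := by
        have h9 := (h7' i₁).1
        rw [abs_le] at h9
        omega
      have e1 : ((3 ^ od j w : ℕ) : ℝ) * U / 3 ^ (-(t i₁).1).toNat = ((3 ^ (od j w - (-(t i₁).1).toNat) : ℕ) : ℝ) * U := by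
        push_cast
        have e2 : (3 : ℝ) ^ od j w = 3 ^ (od j w - (-(t i₁).1).toNat) * 3 ^ (-(t i₁).1).toNat := by
          rw [← pow_add]; congr 1; omega
        rw [e2]
        field_simp
      rw [e1]
      have := Av_cc (F := fun x => ∏ l, f l (3 ^ ee t i₁ l * x + rr t i₁ l)) (fun n => prodK_bd hf _)
        (M := 3 ^ (od j w - (-(t i₁).1).toNat)) (Nat.one_le_pow _ _ (by norm_num)) (κ := κ) hU
      rw [← hY, ← hv₀] at this
      exact this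
    · rw [id1_pos hg1]
      have a1 := VK_bd hf v₀ hY1 (od j w) (rn stK j s w)
      have a2 : |can f κ (3 ^ od j w * X / 2 ^ j) (rn stK j s w) (mi (rn stK j s w))| ≤ 2 :=
        ccK_bd hf κ (by positivity) _ _
      have a3 := abs_sub (VK f v₀ Y (od j w) (rn stK j s w))
        (can f κ (3 ^ od j w * X / 2 ^ j) (rn stK j s w) (mi (rn stK j s w)))
      linarith
  have s3 := ex_diff (j := j) hpt
  have hfin := (abs_sub_le (ccK f κ X (fun i => (s i).1.toNat) (fun i => (s i).2))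
    (Av (fun n => ∏ i, f i (3 ^ (s i).1.toNat * n + (s i).2)) (2 ^ j) v₀ Y)
    (ex j (fun y => can f κ (3 ^ od j y * X / 2 ^ j) (rn stK j s y) (mi (rn stK j s y)))))
  have hfin2 := (abs_sub_le (Av (fun n => ∏ i, f i (3 ^ (s i).1.toNat * n + (s i).2)) (2 ^ j) v₀ Y)
    (ex j (fun w => VK f v₀ Y (od j w) (rn stK j s w)))
    (ex j (fun y => can f κ (3 ^ od j y * X / 2 ^ j) (rn stK j s y) (mi (rn stK j s y)))))
  have e9 : 5 / U = 5 * (2 ^ j / X) := by rw [hUd]; field_simp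
  rw [e9] at s1 s3
  linarith

/-- the number of labels out of the range -/
theorem lab_rate (K c : ℕ) : ∀ᶠ w : ℕ in atTop, ∀ j, w ^ 80 ≤ j → j ≤ 2 * w ^ 80 → ∀ s : Fin K → ℤ × ℤ,
    GK (c * w ^ 48) (c * w ^ 56) s → pb j (fun y => ¬ ((j - w ^ 44) / 2 ≤ od j y ∧
      GK ((2 * c + 4) * w ^ 48) ((2 * c + 4) * w ^ 56) (rn stK j s y))) ≤ 1 / w := by
  have t4 : Tendsto (fun w : ℕ => w ^ 4) atTop atTop := tendsto_pow_atTop (by norm_num)
  filter_upwards [t4.eventually (Pool.Agent.J4H79.PC2.t_LABR K c 1), eventually_ge_atTop 1] with w e3 hw1 j hj1 hj2 s hG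
  have z20 : (w ^ 4) ^ 20 = w ^ 80 := by ring
  have z12 : (w ^ 4) ^ 12 = w ^ 48 := by ring
  have z14 : (w ^ 4) ^ 14 = w ^ 56 := by ring
  have z11 : (w ^ 4) ^ 11 = w ^ 44 := by ring
  rw [z20, z12, z14, z11] at e3
  have hw0 : (0 : ℝ) < w := by exact_mod_cast hw1
  refine (e3 j hj1 hj2 _ hG).trans ?_
  rw [pow_one]
  apply one_div_le_one_div_of_le hw0
  exact_mod_cast Nat.le_self_pow (by norm_num) w

theorem rate_can (K c : ℕ) [Nonempty (Fin K)] : ∃ C : ℝ, 0 < C ∧ ∀ᶠ w : ℕ in atTop, ∀ j, w ^ 80 ≤ j →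
    j ≤ 2 * w ^ 80 → ∀ f : Fin K → ℤ → ℝ, (∀ i, Iv (f i)) → ∀ κ X : ℝ, (2 : ℝ) ^ (3 * j) ≤ X → ∀ s : Fin K → ℤ × ℤ,
    GK (c * w ^ 48) (c * w ^ 56) s → (∀ i, 0 ≤ (s i).1) → ∀ i₀, s i₀ = (0, 0) →
    |ccK f κ X (fun i => (s i).1.toNat) (fun i => (s i).2) -
      ex j (fun y => can f κ (3 ^ od j y * X / 2 ^ j) (rn stK j s y) (mi (rn stK j s y)))| ≤ C / w := by
  obtain ⟨C₀, hC₀, hη⟩ := eta_rate
  refine ⟨10 + 2 + 4 * K * C₀ + 2 + 5, by positivity, ?_⟩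
  have t4 : Tendsto (fun w : ℕ => w ^ 4) atTop atTop := tendsto_pow_atTop (by norm_num)
  filter_upwards [hη, t4.eventually (Pool.Agent.J4H79.PC2.t_DVR K c 1), lab_rate K c,
    eventually_ge_atTop 40, eventually_ge_atTop (2 * c + 4), eventually_ge_atTop (4 * c + 8)]
    with w e1 e2 e3 hw hwc hwc2 j hj1 hj2 f hf κ X hX s hG hs0 i₀ hi₀
  have z20 : (w ^ 4) ^ 20 = w ^ 80 := by ring
  have z12 : (w ^ 4) ^ 12 = w ^ 48 := by ring
  have z14 : (w ^ 4) ^ 14 = w ^ 56 := by ring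
  have z19 : (w ^ 4) ^ 19 = w ^ 76 := by ring
  have z11 : (w ^ 4) ^ 11 = w ^ 44 := by ring
  rw [z20, z12, z14, z19] at e2
  have hw1 : 1 ≤ w := by omega
  have hwR : (1 : ℝ) ≤ w := by exact_mod_cast hw1
  have hw0 : (0 : ℝ) < w := by linarith
  have hz40 : 40 ≤ w ^ 4 := le_trans hw (Nat.le_self_pow (by norm_num) w)
  have hzc : 2 * c + 4 ≤ w ^ 4 := le_trans hwc (Nat.le_self_pow (by norm_num) w)
  obtain ⟨n1, n2, n3, _⟩ := Pool.Agent.J4H39.nat_facts (j := j) hz40 hzc (by rw [z20]; exact hj1)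
  rw [z12, z19] at n1
  rw [z14, z19] at n2
  rw [z19, z11] at n3
  have hC : Cm s := Pool.Agent.J4H39.Cm_nonneg hs0
  have hDV := e2 j hj1 hj2 _ hG hC
  have hLB := e3 j hj1 hj2 _ hG
  have hinv : 1 / (((w ^ 4 : ℕ)) : ℝ) ^ 1 ≤ 1 / w := by
    rw [pow_one]
    apply one_div_le_one_div_of_le hw0
    exact_mod_cast Nat.le_self_pow (by norm_num) w
  have hjw : w ≤ j := le_trans (Nat.le_self_pow (by norm_num) w) hj1
  have hj1' : 1 ≤ j := by omega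
  obtain ⟨Lg, hLg⟩ : ∃ Lg : ℕ × (Fin K → ℤ × ℤ) → Prop, Lg = fun μ => (j - w ^ 44) / 2 ≤ μ.1 ∧
    GK ((2 * c + 4) * w ^ 48) ((2 * c + 4) * w ^ 56) μ.2 := ⟨_, rfl⟩
  have hpb : pb j (fun y => ¬ Lg (lb stK j s y)) ≤ 1 / w := by
    refine le_trans (Pool.Agent.J4H39.pb_mono ?_) hLB
    intro y hy hy'
    apply hy
    rw [hLg]
    exact hy'
  have h40 : 40 * w ^ 76 ≤ w ^ 80 := by
    calc 40 * w ^ 76 ≤ w * w ^ 76 := Nat.mul_le_mul_right _ hw
      _ = w ^ 77 := by ring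
      _ ≤ w ^ 80 := Nat.pow_le_pow_right hw1 (by norm_num)
  have h76 : 1 ≤ w ^ 76 := Nat.one_le_pow _ _ hw1
  have h48 : 2 * ((2 * c + 4) * w ^ 48) ≤ w ^ 76 := by
    calc 2 * ((2 * c + 4) * w ^ 48) = (4 * c + 8) * w ^ 48 := by ring
      _ ≤ w * w ^ 48 := Nat.mul_le_mul_right _ hwc2
      _ = w ^ 49 := by ring
      _ ≤ w ^ 76 := Nat.pow_le_pow_right hw1 (by norm_num)
  have hX' : (2 : ℝ) ^ (j + 1) ≤ X := le_trans (pow_le_pow_right₀ (by norm_num) (by omega)) hX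
  have hX0 : 0 < X := lt_of_lt_of_le (by positivity) hX
  have hwj : (w : ℝ) ≤ 2 ^ j := by
    have : w ≤ 2 ^ j := le_trans hjw (Nat.lt_two_pow_self).le
    exact_mod_cast this
  have key := stage_can hf hs0 hi₀ (j := j) (k := j / 8) (m := w ^ 76) (a := (2 * c + 4) * w ^ 48)
    (b := (2 * c + 4) * w ^ 56) (o₀ := (j - w ^ 44) / 2) (η := C₀ / w) (ε := 1 / w) n3 n1 (by
      intro r' hr'
      refine e1 j hj1 hj2 _ ?_ r' hr'
      omega) Lg (by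
      intro μ hμ
      rw [hLg] at hμ
      exact hμ) κ hX' (by
      have h2j : (0 : ℝ) < 2 ^ j := by positivity
      have a1 : (2 : ℝ) ^ (2 * j) ≤ X / 2 ^ j := by
        rw [le_div_iff₀ h2j, ← pow_add]
        calc (2 : ℝ) ^ (2 * j + j) = 2 ^ (3 * j) := by congr 1; ring
          _ ≤ X := hX
      have a2 : 2 * ((4 : ℝ) ^ ((2 * c + 4) * w ^ 56) + 1) ≤ 2 ^ j := by
        have b1 : (1 : ℝ) ≤ 4 ^ ((2 * c + 4) * w ^ 56) := one_le_pow₀ (by norm_num)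
        calc 2 * ((4 : ℝ) ^ ((2 * c + 4) * w ^ 56) + 1) ≤ 4 * 4 ^ ((2 * c + 4) * w ^ 56) := by linarith
          _ = 2 ^ (2 + 2 * ((2 * c + 4) * w ^ 56)) := by
            rw [pow_add, pow_mul 2 2 ((2 * c + 4) * w ^ 56)]; norm_num
          _ ≤ 2 ^ j := pow_le_pow_right₀ (by norm_num) (by omega)
      rw [div_mul_eq_mul_div, one_mul, le_div_iff₀ hw0]
      calc 2 * ((4 : ℝ) ^ ((2 * c + 4) * w ^ 56) + 1) * w ≤ 2 ^ j * 2 ^ j :=
            mul_le_mul a2 hwj hw0.le (by positivity)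
        _ = 2 ^ (2 * j) := by rw [← pow_add]; congr 1; ring
        _ ≤ X / 2 ^ j := a1)
  have hXj : 2 ^ j / X ≤ 1 / (w : ℝ) := by
    rw [div_le_div_iff₀ hX0 hw0, one_mul]
    calc (2 : ℝ) ^ j * w ≤ 2 ^ j * 2 ^ j := mul_le_mul_of_nonneg_left hwj (by positivity)
      _ = 2 ^ (j + j) := by rw [pow_add]
      _ ≤ 2 ^ (3 * j) := pow_le_pow_right₀ (by norm_num) (by omega)
      _ ≤ X := hX
  have hDV' := hDV.trans hinv
  refine key.trans ?_
  have e9 : (10 + 2 + 4 * K * C₀ + 2 + 5) / (w : ℝ) = 10 * (1 / w) + 2 * (1 / w) + 4 * K * (C₀ / w) + 2 * (1 / w) +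
      5 * (1 / (w : ℝ)) := by ring
  rw [e9]
  linarith

/-- the size of the error of the canonical form -/
theorem small_err {w j d : ℕ} (hw : 40 ≤ w) (hj : w ^ 80 ≤ j) (hd : d ≤ 6 * w ^ 48) {r : ℤ} (hr : |r| ≤ 4 ^ (6 * w ^ 56))
    {X : ℝ} (hX : (2 : ℝ) ^ (3 * j) ≤ X) : (2 * |(r : ℝ)| + 4) / max (X / 3 ^ d) 1 ≤ 1 / w := by
  have hw1 : 1 ≤ w := by omega
  have hw0 : (0 : ℝ) < w := by exact_mod_cast (by omega : 0 < w)
  have hjw : w ≤ j := le_trans (Nat.le_self_pow (by norm_num) w) hj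
  have hwj : (w : ℝ) ≤ 2 ^ j := by
    have : w ≤ 2 ^ j := le_trans hjw (Nat.lt_two_pow_self).le
    exact_mod_cast this
  have h57 : 40 * w ^ 56 ≤ w ^ 80 := by
    calc 40 * w ^ 56 ≤ w * w ^ 56 := Nat.mul_le_mul_right _ hw
      _ = w ^ 57 := by ring
      _ ≤ w ^ 80 := Nat.pow_le_pow_right hw1 (by norm_num)
  have h48 : w ^ 48 ≤ w ^ 56 := Nat.pow_le_pow_right hw1 (by norm_num)
  have h56 : 1 ≤ w ^ 56 := Nat.one_le_pow _ _ hw1
  have hmax : (0 : ℝ) < max (X / 3 ^ d) 1 := lt_of_lt_of_le one_pos (le_max_right _ _)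
  rw [div_le_div_iff₀ hmax hw0, one_mul]
  refine le_trans ?_ (le_max_left _ _)
  rw [le_div_iff₀ (by positivity)]
  have hrR : |(r : ℝ)| ≤ 4 ^ (6 * w ^ 56) := by exact_mod_cast hr
  have a1 : 2 * |(r : ℝ)| + 4 ≤ 2 ^ (12 * w ^ 56 + 3) := by
    have b1 : (1 : ℝ) ≤ 4 ^ (6 * w ^ 56) := one_le_pow₀ (by norm_num)
    have b2 : (2 : ℝ) ^ (12 * w ^ 56 + 3) = 8 * 4 ^ (6 * w ^ 56) := by
      have : 12 * w ^ 56 = 2 * (6 * w ^ 56) := by ring
      rw [this, pow_add, pow_mul 2 2 (6 * w ^ 56)]; norm_num; ring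
    rw [b2]
    linarith
  have a2 : (3 : ℝ) ^ d ≤ 2 ^ (12 * w ^ 56) := by
    calc (3 : ℝ) ^ d ≤ 4 ^ d := pow_le_pow_left₀ (by norm_num) (by norm_num) d
      _ = 2 ^ (2 * d) := by rw [pow_mul]; norm_num
      _ ≤ 2 ^ (12 * w ^ 56) := pow_le_pow_right₀ (by norm_num) (by omega)
  calc (2 * |(r : ℝ)| + 4) * w * 3 ^ d ≤ 2 ^ (12 * w ^ 56 + 3) * 2 ^ j * 2 ^ (12 * w ^ 56) := by gcongr
    _ = 2 ^ (12 * w ^ 56 + 3 + j + 12 * w ^ 56) := by rw [← pow_add, ← pow_add]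
    _ ≤ 2 ^ (3 * j) := pow_le_pow_right₀ (by norm_num) (by omega)
    _ ≤ X := hX


/-- (J4) -/
theorem t_G1K : S_G1K := by
  intro K
  rcases Nat.eq_zero_or_pos K with hK | hK
  · refine ⟨1, one_pos, Eventually.of_forall fun w j _ _ F _ κ _ X _ s _ h => ?_⟩
    obtain ⟨i, _⟩ := h
    subst hK
    exact i.elim0
  haveI : Nonempty (Fin K) := ⟨⟨0, hK⟩⟩
  obtain ⟨C₁, hC₁, h1⟩ := rate_can K 2
  refine ⟨1 + C₁ + 6, by positivity, ?_⟩
  filter_upwards [h1, lab_rate K 1, eventually_ge_atTop 40] with w g1 g2 hw j hj1 hj2 F hF κ _ X hX s hC hb hs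
  obtain ⟨b, hb⟩ := hb
  have hw1 : 1 ≤ w := by omega
  have hw0 : (0 : ℝ) < w := by exact_mod_cast (by omega : 0 < w)
  have h57 : 40 * w ^ 56 ≤ w ^ 80 := by
    calc 40 * w ^ 56 ≤ w * w ^ 56 := Nat.mul_le_mul_right _ hw
      _ = w ^ 57 := by ring
      _ ≤ w ^ 80 := Nat.pow_le_pow_right hw1 (by norm_num)
  have h49 : w ^ 48 + 1 ≤ w ^ 56 := by
    have : w ^ 48 + 1 ≤ 2 * w ^ 48 := by have := Nat.one_le_pow 48 w hw1; omega
    calc w ^ 48 + 1 ≤ 2 * w ^ 48 := this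
      _ ≤ w * w ^ 48 := Nat.mul_le_mul_right _ (by omega)
      _ = w ^ 49 := by ring
      _ ≤ w ^ 56 := Nat.pow_le_pow_right hw1 (by norm_num)
  obtain ⟨i₀, hi₀⟩ : ∃ i₀, i₀ = mi s := ⟨_, rfl⟩
  have hmin : ∀ l, (s i₀).1 ≤ (s l).1 := fun l => by rw [hi₀]; exact mi_spec s l
  have h0 : (s i₀).1 ≤ 0 := by
    have := hmin b
    rw [hb] at this
    exact this
  obtain ⟨y₀, hy₀⟩ := id hC
  choose z₀ hz₀ using hy₀
  obtain ⟨_, hzz, hrel⟩ := rel_can hmin h0 hz₀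
  obtain ⟨W, hW⟩ : ∃ W : ℕ, W = w ^ 48 := ⟨_, rfl⟩
  have hs1 : ∀ l, |(s l).1| ≤ (W : ℤ) := fun l => by rw [hW]; push_cast; exact (hs l).1
  have hs2 : ∀ l, |(s l).2| ≤ 4 ^ (w ^ 56) := fun l => (hs l).2
  obtain ⟨E, hE⟩ : ∃ E, E = (-(s i₀).1).toNat := ⟨_, rfl⟩
  have hEW : E ≤ W := by
    have := hs1 i₀
    rw [abs_le] at this
    omega
  have hEz : (E : ℤ) = -(s i₀).1 := by rw [hE]; exact Int.toNat_of_nonneg (by omega)
  obtain ⟨s0, hs0⟩ : ∃ s0 : Fin K → ℤ × ℤ, s0 = fun l => ((ee s i₀ l : ℤ), rr s i₀ l) := ⟨_, rfl⟩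
  have hs0z : s0 i₀ = (0, 0) := by
    have e1 : ee s i₀ i₀ = 0 := by unfold ee; simp
    have e2 : rr s i₀ i₀ = 0 := by
      have := hzz i₀
      rw [e1, pow_zero, one_mul] at this
      linarith
    rw [hs0]
    simp only
    rw [e1, e2]
    rfl
  have hs0n : ∀ l, 0 ≤ (s0 l).1 := by
    intro l
    rw [hs0]
    positivity
  have hG0 : GK (2 * w ^ 48) (2 * w ^ 56) s0 := by
    intro l
    rw [hs0, ← hW]
    constructor
    · simp only
      have a1 := hs1 l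
      have a2 := hs1 i₀
      rw [abs_le] at a1 a2
      rw [abs_of_nonneg (by positivity)]
      have : ee s i₀ l ≤ 2 * W := by unfold ee; omega
      exact_mod_cast this
    · simp only
      have a1 := hrel 0 l
      unfold Pool.Agent.J4H39.Rel at a1
      rw [mul_zero, mul_zero, zero_add, zero_sub] at a1
      have a2 : (1 : ℤ) ≤ 3 ^ (-(s l).1).toNat := one_le_pow₀ (by norm_num)
      have a3 : |rr s i₀ l| ≤ 3 ^ (-(s l).1).toNat * |rr s i₀ l| := le_mul_of_one_le_left (abs_nonneg _) a2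
      have a4 : 3 ^ (-(s l).1).toNat * |rr s i₀ l| = |3 ^ (s l).1.toNat * -(s i₀).2 + (s l).2| := by
        rw [← a1, abs_mul, abs_of_pos (by positivity : (0 : ℤ) < 3 ^ (-(s l).1).toNat)]
      have a5 := abs_add_le (3 ^ (s l).1.toNat * -(s i₀).2) (s l).2
      have a6 : |3 ^ (s l).1.toNat * -(s i₀).2| = 3 ^ (s l).1.toNat * |(s i₀).2| := by
        rw [abs_mul, abs_of_pos (by positivity : (0 : ℤ) < 3 ^ (s l).1.toNat), abs_neg]
      have a7 : (3 : ℤ) ^ (s l).1.toNat ≤ 4 ^ W := by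
        refine (pow_le_pow_left₀ (by norm_num) (by norm_num) _).trans (pow_le_pow_right₀ (by norm_num) ?_)
        have := hs1 l
        rw [abs_le] at this
        omega
      have a8 : 3 ^ (s l).1.toNat * |(s i₀).2| ≤ 4 ^ W * 4 ^ (w ^ 56) :=
        mul_le_mul a7 (hs2 i₀) (abs_nonneg _) (by positivity)
      have a9 : (1 : ℤ) ≤ 4 ^ W := one_le_pow₀ (by norm_num)
      have a10 : (4 : ℤ) ^ W * 4 ^ (w ^ 56) + 4 ^ (w ^ 56) ≤ 4 ^ (2 * w ^ 56) := by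
        have b1 : (0 : ℤ) < 4 ^ (w ^ 56) := by positivity
        have b2 : ∀ A B : ℤ, 1 ≤ A → 0 < B → A * B + B ≤ A * 4 * B := by intro A B h1 h2; nlinarith
        calc (4 : ℤ) ^ W * 4 ^ (w ^ 56) + 4 ^ (w ^ 56) ≤ 4 ^ (W + 1) * 4 ^ (w ^ 56) := by
              rw [pow_succ]; exact b2 _ _ a9 b1
          _ = 4 ^ (W + 1 + w ^ 56) := by rw [← pow_add]
          _ ≤ 4 ^ (2 * w ^ 56) := pow_le_pow_right₀ (by norm_num) (by omega)
      have a11 := hs2 l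
      linarith
  have hX0 : 0 < X := lt_of_lt_of_le (by positivity) hX
  have h3E : (3 : ℝ) ^ E ≤ 2 ^ j := by
    calc (3 : ℝ) ^ E ≤ 4 ^ E := pow_le_pow_left₀ (by norm_num) (by norm_num) E
      _ = 2 ^ (2 * E) := by rw [pow_mul]; norm_num
      _ ≤ 2 ^ j := pow_le_pow_right₀ (by norm_num) (by omega)
  have hX1 : (2 : ℝ) ^ (3 * j) ≤ X / 3 ^ E := by
    rw [le_div_iff₀ (by positivity)]
    calc (2 : ℝ) ^ (3 * j) * 3 ^ E ≤ 2 ^ (3 * j) * 2 ^ j := by gcongr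
      _ = 2 ^ (4 * j) := by rw [← pow_add]; congr 1; ring
      _ ≤ X := hX
  have hX3 : (2 : ℝ) ^ (3 * j) ≤ X := le_trans (pow_le_pow_right₀ (by norm_num) (by omega)) hX
  -- the beginning
  have p1 : |cgK F κ X s - ccK F κ (X / 3 ^ E) (fun i => (s0 i).1.toNat) (fun i => (s0 i).2)| ≤ 1 / w := by
    have := cgK_can hF κ X hC hmin h0
    have e1 : can F κ X s i₀ = ccK F κ (X / 3 ^ E) (fun i => (s0 i).1.toNat) (fun i => (s0 i).2) := by
      unfold can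
      rw [hs0, ← hE]
      simp only [Int.toNat_natCast]
    rw [e1] at this
    refine this.trans ?_
    rw [← hE]
    apply small_err hw hj1 (by rw [← hW]; omega) _ hX3
    exact (hs2 i₀).trans (pow_le_pow_right₀ (by norm_num) (by omega))
  -- the stage
  have p2 := g1 j hj1 hj2 F hF κ (X / 3 ^ E) hX1 s0 hG0 hs0n i₀ hs0z
  -- the end
  obtain ⟨c, hc⟩ : ∃ c : ℤ, c = -(s i₀).2 := ⟨_, rfl⟩
  obtain ⟨G, hG⟩ : ∃ G : ℤ → ℝ, G = fun y => cgK F κ (3 ^ od j y * X / 2 ^ j) (rn stK j s y) := ⟨_, rfl⟩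
  have hGper : Per j G := by
    intro x u
    rw [hG]
    simp only
    rw [Pool.Agent.J4H39.per_od (le_refl j) x u, Pool.Agent.J4H39.per_rn stK _ (le_refl j) x u]
  have e5 : ex j G = ex j (fun x => G (3 ^ E * x + c)) :=
    (Pool.Agent.J4H39.ex_affine j hGper (Pool.Agent.J4H39.pow3_odd E) c).symm
  obtain ⟨P, hP⟩ : ∃ P : ℤ → Prop, P = fun y => ¬ ((j - w ^ 44) / 2 ≤ od j y ∧
      GK ((2 * 1 + 4) * w ^ 48) ((2 * 1 + 4) * w ^ 56) (rn stK j s y)) := ⟨_, rfl⟩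
  have hPper : Per j P := by
    intro x u
    rw [hP]
    simp only
    rw [Pool.Agent.J4H39.per_od (le_refl j) x u, Pool.Agent.J4H39.per_rn stK _ (le_refl j) x u]
  have hPpb : pb j (fun x => P (3 ^ E * x + c)) ≤ 1 / w := by
    rw [Pool.Agent.J4H39.pb_affine hPper (Pool.Agent.J4H39.pow3_odd E) c, hP]
    apply g2 j hj1 hj2 s
    intro l
    rw [one_mul, one_mul]
    refine ⟨?_, hs2 l⟩
    rw [← hW]
    exact hs1 l
  have hpt : ∀ x, |can F κ (3 ^ od j x * (X / 3 ^ E) / 2 ^ j) (rn stK j s0 x) (mi (rn stK j s0 x)) -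
      G (3 ^ E * x + c)| ≤ 1 / w + 5 * id1 (P (3 ^ E * x + c)) := by
    intro x
    obtain ⟨y, hy⟩ : ∃ y, y = 3 ^ E * x + c := ⟨_, rfl⟩
    rw [← hy, hG]
    simp only
    obtain ⟨t, ht⟩ : ∃ t, t = rn stK j s0 x := ⟨_, rfl⟩
    obtain ⟨t', ht'⟩ : ∃ t', t' = rn stK j s y := ⟨_, rfl⟩
    rw [← ht, ← ht']
    obtain ⟨i₁, hi₁⟩ : ∃ i₁, i₁ = mi t := ⟨_, rfl⟩
    rw [← hi₁]
    have r1 : ∀ l, Rel (s0 l) x (3 ^ ee s i₀ l * x + rr s i₀ l) := fun l => by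
      rw [hs0]
      exact Pool.Agent.J4H39.rel_nat _ _ _
    have r2 : ∀ l, Rel (s l) y (3 ^ ee s i₀ l * x + rr s i₀ l) := by
      intro l
      have := hrel x l
      rw [← hE] at this
      rw [hy, hc, ← sub_eq_add_neg]
      exact this
    have q1 : ∀ l, Rel (t l) (T^[j] x) (T^[j] (3 ^ ee s i₀ l * x + rr s i₀ l)) ∧
        (t l).1 = (s0 l).1 + od j (3 ^ ee s i₀ l * x + rr s i₀ l) - od j x := by
      intro l
      rw [ht, Pool.Agent.J4H39.rn_stK_apply]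
      exact Pool.Agent.J4H39.rel_rn (r1 l) j
    have q2 : ∀ l, Rel (t' l) (T^[j] y) (T^[j] (3 ^ ee s i₀ l * x + rr s i₀ l)) ∧
        (t' l).1 = (s l).1 + od j (3 ^ ee s i₀ l * x + rr s i₀ l) - od j y := by
      intro l
      rw [ht', Pool.Agent.J4H39.rn_stK_apply]
      exact Pool.Agent.J4H39.rel_rn (r2 l) j
    have hs0l : ∀ l, (s0 l).1 = (s l).1 + E := by
      intro l
      rw [hs0, hEz]
      simp only
      unfold ee
      rw [Int.toNat_of_nonneg (by have := hmin l; omega)]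
      ring
    have hd : ∀ l, (t l).1 = (t' l).1 + E + od j y - od j x := by
      intro l
      rw [(q1 l).2, (q2 l).2, hs0l l]
      ring
    have hm : ∀ l, (t i₁).1 ≤ (t l).1 := fun l => by rw [hi₁]; exact mi_spec t l
    have hm' : ∀ l, (t' i₁).1 ≤ (t' l).1 := by
      intro l
      have := hm l
      rw [hd i₁, hd l] at this
      linarith
    have ht0 : (t i₁).1 ≤ 0 := by
      have h3 := hm i₀
      have h4 : t i₀ = (0, 0) := by rw [ht, Pool.Agent.J4H39.rn_stK_apply, hs0z, Pool.Agent.J4H39.rn_zero]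
      rw [h4] at h3
      exact h3
    have ht0' : (t' i₁).1 ≤ 0 := by
      have h3 := hm' b
      have h4 : t' b = (0, 0) := by rw [ht', Pool.Agent.J4H39.rn_stK_apply, hb, Pool.Agent.J4H39.rn_zero]
      rw [h4] at h3
      exact h3
    have eeq : ee t i₁ = ee t' i₁ := by
      funext l
      unfold ee
      rw [hd l, hd i₁]
      congr 1
      ring
    have req : rr t i₁ = rr t' i₁ := by
      funext l
      obtain ⟨_, u1, _⟩ := rel_can hm ht0 (fun l => (q1 l).1)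
      obtain ⟨_, u2, _⟩ := rel_can hm' ht0' (fun l => (q2 l).1)
      have u3 := u1 l
      have u4 := u2 l
      rw [eeq] at u3
      linarith
    obtain ⟨d, hdd⟩ : ∃ d, d = (-(t i₁).1).toNat := ⟨_, rfl⟩
    obtain ⟨d', hdd'⟩ : ∃ d', d' = (-(t' i₁).1).toNat := ⟨_, rfl⟩
    have hexp : od j x + d' = od j y + E + d := by
      have := hd i₁
      omega
    have hlen : 3 ^ od j x * (X / 3 ^ E) / 2 ^ j / 3 ^ d = 3 ^ od j y * X / 2 ^ j / 3 ^ d' := by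
      have e1 : (3 : ℝ) ^ od j x * 3 ^ d' = 3 ^ od j y * 3 ^ E * 3 ^ d := by
        rw [← pow_add, hexp, pow_add, pow_add]
      have h3a : (3 : ℝ) ^ d' ≠ 0 := by positivity
      have h3b : (3 : ℝ) ^ E ≠ 0 := by positivity
      have h3c : (3 : ℝ) ^ d ≠ 0 := by positivity
      have h3d : (2 : ℝ) ^ j ≠ 0 := by positivity
      rw [div_div, div_div, ← mul_div_assoc, div_div, div_eq_div_iff (by positivity) (by positivity)]
      calc 3 ^ od j x * X * (2 ^ j * 3 ^ d') = (3 ^ od j x * 3 ^ d') * X * 2 ^ j := by ring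
        _ = 3 ^ od j y * 3 ^ E * 3 ^ d * X * 2 ^ j := by rw [e1]
        _ = 3 ^ od j y * X * (3 ^ E * (2 ^ j * 3 ^ d)) := by ring
    have hcan : can F κ (3 ^ od j x * (X / 3 ^ E) / 2 ^ j) t i₁ = can F κ (3 ^ od j y * X / 2 ^ j) t' i₁ := by
      unfold can
      rw [eeq, req, ← hdd, ← hdd', hlen]
    rw [hcan]
    have hCt : Cm t' := by rw [ht']; exact Pool.Agent.J4H39.Cm_rn hC j y
    have h1w : (0 : ℝ) ≤ 1 / w := by positivity
    by_cases hPy : P y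
    · rw [id1_pos hPy]
      have a1 : |can F κ (3 ^ od j y * X / 2 ^ j) t' i₁| ≤ 2 := ccK_bd hF κ (by positivity) _ _
      have a2 : |cgK F κ (3 ^ od j y * X / 2 ^ j) t'| ≤ 3 := cgK_bd hF κ (by positivity) hCt hm' ht0'
      have a3 := abs_sub (can F κ (3 ^ od j y * X / 2 ^ j) t' i₁) (cgK F κ (3 ^ od j y * X / 2 ^ j) t')
      linarith
    · rw [id1_neg hPy, mul_zero, add_zero]
      rw [hP] at hPy
      simp only [not_not] at hPy
      rw [← ht'] at hPy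
      rw [abs_sub_comm]
      refine (cgK_can hF κ _ hCt hm' ht0').trans ?_
      have b1 := (hPy.2 i₁).1
      have b2 := (hPy.2 i₁).2
      apply small_err hw hj1
      · rw [← hdd', ← hW]
        rw [abs_le, ← hW] at b1
        omega
      · norm_num at b2
        exact b2
      · rw [le_div_iff₀ (by positivity), ← pow_add]
        calc (2 : ℝ) ^ (3 * j + j) = 1 * 2 ^ (4 * j) := by rw [one_mul]; congr 1; ring
          _ ≤ 3 ^ od j y * X := mul_le_mul (one_le_pow₀ (by norm_num)) hX (by positivity) (by positivity)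
  have p3 := ex_diff (j := j) hpt
  rw [← e5] at p3
  rw [hG] at p3
  have t1 := abs_sub_le (cgK F κ X s) (ccK F κ (X / 3 ^ E) (fun i => (s0 i).1.toNat) (fun i => (s0 i).2))
    (ex j (fun y => cgK F κ (3 ^ od j y * X / 2 ^ j) (rn stK j s y)))
  have t2 := abs_sub_le (ccK F κ (X / 3 ^ E) (fun i => (s0 i).1.toNat) (fun i => (s0 i).2))
    (ex j (fun y => can F κ (3 ^ od j y * (X / 3 ^ E) / 2 ^ j) (rn stK j s0 y) (mi (rn stK j s0 y))))
    (ex j (fun y => cgK F κ (3 ^ od j y * X / 2 ^ j) (rn stK j s y)))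
  have e9 : (1 + C₁ + 6) / (w : ℝ) = 1 / w + (C₁ / w + (1 / w + 5 * (1 / (w : ℝ)))) := by ring
  rw [e9]
  linarith

end Pool.Agent.J4H94.KP
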